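import Pool.Agent.HFB.FHC

/-!
# Effective Shafarevich for curves which are geometrically Galois covers of a genus one curve

`K` is a number field, `X` a smooth proper geometrically integral curve over `K` with function field `F`, `C` an algebraic
closure of `K` and `Φ` the function field of `X_C` (the compositum of `F` and `C`, `Cmps`).  `T` is a finite set of finite
places and `X` has good reduction outside `T` (`GoodRed`).  `X` has genus `g ≥ 2`: the differentials `f₀ i dx₀` (`i < g`,
with `f₀ i`, `x₀` in `F`) are a basis of the space of regular differentials.  The curve `X_C` is a Galois cover of a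
curve of genus one: the canonical divisor of the fixed field of the group `G` of automorphisms of `Φ` over `C` has
degree `0`.

Then the stable Faltings height `hFal` of `X` is at most the explicit number `tw 151 (szK K T + 170 * g)`, where
`szK K T = [K : ℚ] + |d_K| + ∏_{v ∈ T} N v + 16` and `tw` is the iterated exponential.

`hFal` is the arithmetic degree, divided by `[K : ℚ]`, of the determinant of the lattice of integral differentials
(`IntDiff`: regular differentials which are integral at the generic points of the special fibres of the semistable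
models, i.e. sections of the relative dualising sheaf) with its `L²` metrics (`gram`); `a v` extends the absolute value
of the finite place `v` to `C`, and `j σ : F → Ψ σ` is the function field over `ℂ` for the embedding `σ` of `K`.
-/

namespace Pool.Agent.Results.MP_f89135_nt.GaloisOverGenusOne

open CategoryTheory AlgebraicGeometry NumberField IsDedekindDomain
open Pool.Agent.Helper11 Pool.Agent.ESH Pool.Agent.HFB
open scoped KaehlerDifferential

universe u

theorem result {K F : Type u} {C Φ : Type*} [Field K] [NumberField K] [Field F] [Algebra K F] [Field C]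
    [Algebra K C] [Algebra.IsAlgebraic K C] [IsAlgClosed C] [Field Φ] [Algebra C Φ] [Algebra F Φ]
    (hc : Cmps K F C Φ) {X : Scheme.{u}} [IsIntegral X] (f : X ⟶ Spec (.of K)) [IsProper f]
    [SmoothOfRelativeDimension 1 f] [GeometricallyIntegral f]
    (e : X.functionField ≃+* F) (he : ∀ c : K, e (constMap f c) = algebraMap K F c)
    (T : Finset (HeightOneSpectrum (𝓞 K))) (hT : ∀ v : HeightOneSpectrum (𝓞 K), v ∉ T → GoodRed f v)
    (a : FinitePlace K → AbsoluteValue C ℝ)
    (ha : ∀ v, IsNonarchimedean (a v) ∧ ∀ y : K, a v (algebraMap K C y) = v y)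
    {Ψ : (K →+* ℂ) → Type*} [∀ σ, Field (Ψ σ)] [∀ σ, Algebra ℂ (Ψ σ)] (j : ∀ σ, F →+* Ψ σ)
    (hj : ∀ σ, CmpE σ (j σ)) (g : ℕ) (hg : 2 ≤ g) (x₀ : F) (f₀ : Fin g → F)
    (hr : ∀ i, ∀ R : Place C Φ, 0 ≤ R.ordDiff (algebraMap F Φ (f₀ i) • KaehlerDifferential.D C Φ (algebraMap F Φ x₀)))
    (hli : LinearIndependent C (fun i => algebraMap F Φ (f₀ i) • KaehlerDifferential.D C Φ (algebraMap F Φ x₀)))
    (hsp : ∀ η : Ω[Φ⁄C], (∀ R : Place C Φ, 0 ≤ R.ordDiff η) → η ∈ Submodule.span C
      (Set.range (fun i => algebraMap F Φ (f₀ i) • KaehlerDifferential.D C Φ (algebraMap F Φ x₀))))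
    (G : Subgroup (Φ ≃ₐ[C] Φ)) (hG : chi C (IntermediateField.fixedField G) = 0) :
    hFal (C := C) (Φ := Φ) a j x₀ f₀ ≤ tw 151 (szK K T + 170 * g) :=
  fhc_one hc f e he T hT a ha j hj g hg x₀ f₀ hr hli hsp G hG

end Pool.Agent.Results.MP_f89135_nt.GaloisOverGenusOne
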