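import Pool.Agent.T1.GFH

/-!
# Effective Shafarevich conjecture for non-hyperelliptic curves of genus 4, good reduction of the same type (MP_f89135_nt)

`K` is a number field, `T` a finite set of finite places of `K`, `Q` a quadratic form and `G` a cubic form in four variables
over `K` such that the curve `X : Q = G = 0` in `P³` is smooth: a canonical curve of genus 4.  Every non-hyperelliptic curve of
genus 4 over `K` (with smooth canonical model over `K`) is of this form.  Suppose that for every finite place `v` outside `T` which does not lie over `2` or `3`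
the curve has good reduction of the same type (`GoodCI`): after a linear substitution `g ∈ GL₄(K)`, and after replacing `Q` by `c Q` and `G` by
`u G + l Q` (`l` a linear form), the forms have coefficients in the local ring of `K` at `v` and define a smooth curve over it (`CS`), and
the determinant of `Q` is a unit unless it is zero (i.e. a smooth quadric stays smooth modulo `v`).

`F = K(x, y, z)`, where `(1 : x : y : z)` is the generic point of `X`, is the function field of `X`, `C` an algebraic closure of `K`, `Φ` the function
field of `X_C` (the compositum of `F` and `C`, `Cmps`), and the differentials `f₀ i dx₀` (`i < 4`) are a basis of the regular differentials of `X`.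

Then the stable Faltings height `hFal` of `X` is at most the explicit number `tw 360 (szK K T)`, where
`szK K T = [K : ℚ] + |d_K| + ∏_{v ∈ T} N v + 16` and `tw` is the iterated exponential.

`hFal` is the arithmetic degree, divided by `[K : ℚ]`, of the determinant of the lattice of integral differentials
(`IntDiff`: regular differentials which are integral at the generic points of the special fibres of the semistable
models, i.e. sections of the relative dualising sheaf) with its `L²` metrics (`gram`); `a v` extends the absolute value
of the finite place `v` to `C`, and `j σ : F → Ψ σ` is the function field over `ℂ` for the embedding `σ` of `K`.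
-/

namespace Pool.Agent.Results.MP_f89135_nt.GenusFour

open NumberField IsDedekindDomain MvPolynomial
open Pool.Agent.T1 Pool.Agent.ESH Pool.Agent.Helper11 Pool.Agent.HFB
open scoped KaehlerDifferential

theorem result {K F C Φ : Type*} [Field K] [NumberField K] [Field F] [Algebra K F] [FunField K F]
    [Field C] [Algebra K C] [Algebra.IsAlgebraic K C] [IsAlgClosed C] [Field Φ] [Algebra C Φ]
    [Algebra F Φ] (hc : Cmps K F C Φ)
    (T : Finset (HeightOneSpectrum (𝓞 K))) (Q G : MvPolynomial (Fin 4) K)
    (hQ : Q.IsHomogeneous 2) (hG : G.IsHomogeneous 3) (hS : CS Q G)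
    (hT : ∀ v : HeightOneSpectrum (𝓞 K), v ∉ T → (6 : 𝓞 K) ∉ v.asIdeal → GoodCI Q G v)
    (x y z : F) (hQx : eval₂ (algebraMap K F) ![1, x, y, z] Q = 0)
    (hGx : eval₂ (algebraMap K F) ![1, x, y, z] G = 0)
    (hgen : IntermediateField.adjoin K {x, y, z} = ⊤)
    (a : FinitePlace K → AbsoluteValue C ℝ)
    (ha : ∀ v, IsNonarchimedean (a v) ∧ ∀ y : K, a v (algebraMap K C y) = v y)
    {Ψ : (K →+* ℂ) → Type*} [∀ σ, Field (Ψ σ)] [∀ σ, Algebra ℂ (Ψ σ)] (j : ∀ σ, F →+* Ψ σ)
    (hj : ∀ σ, CmpE σ (j σ)) (x₀ : F) (f₀ : Fin 4 → F)
    (hr : ∀ i, ∀ R : Place C Φ, 0 ≤ R.ordDiff (algebraMap F Φ (f₀ i) • KaehlerDifferential.D C Φ (algebraMap F Φ x₀)))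
    (hli : LinearIndependent C (fun i => algebraMap F Φ (f₀ i) • KaehlerDifferential.D C Φ (algebraMap F Φ x₀)))
    (hsp : ∀ η : Ω[Φ⁄C], (∀ R : Place C Φ, 0 ≤ R.ordDiff η) → η ∈ Submodule.span C
      (Set.range (fun i => algebraMap F Φ (f₀ i) • KaehlerDifferential.D C Φ (algebraMap F Φ x₀)))) :
    hFal (C := C) (Φ := Φ) a j x₀ f₀ ≤ tw 360 (szK K T) :=
  gfh hc T Q G hQ hG hS hT x y z hQx hGx hgen a ha j hj x₀ f₀ hr hli hsp

end Pool.Agent.Results.MP_f89135_nt.GenusFour
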