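import Pool.Agent.PQ.FAL

/-!
# Effective Shafarevich conjecture for plane quartics (MP_f89135_nt)

`K` is a number field, `T` a finite set of finite places of `K`, `Q = 0` a smooth plane quartic over `K` (a curve `X` of
genus 3 which is not hyperelliptic, in its canonical embedding).  Suppose that for every finite place `v` outside `T` which
does not lie over `2` the curve has good reduction as a plane quartic: `c · Q ∘ g` is a smooth form over the local ring of
`K` at `v` for some `g ∈ GL₃(K)` and `c ∈ Kˣ`, i.e. the curve has a smooth proper model over the local ring whose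
special fibre is not hyperelliptic.  Then the stable Faltings height of `X` is explicitly bounded.

`F` is the function field of `X`, generated over `K` by the quotients of the coordinates of the generic point `ξ`; `Φ` is the
function field over the algebraic closure `C` of `K`, `Ψ σ` the function field of the complex curve given by the
embedding `σ`; the height is computed with an arbitrary basis `f₀ i dx₀` of the regular differentials.
-/

namespace Pool.Agent.Results.MP_f89135_nt.PlaneQuartics

open NumberField IsDedekindDomain Pool.Agent.PQ Pool.Agent.ESH Pool.Agent.Helper11 Pool.Agent.HFB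
open scoped KaehlerDifferential

theorem result {K F C Φ : Type*} [Field K] [NumberField K] [Field F] [Algebra K F] [FunField K F]
    [Field C] [Algebra K C] [Algebra.IsAlgebraic K C] [IsAlgClosed C] [Field Φ] [Algebra C Φ] [Algebra F Φ]
    (hc : Cmps K F C Φ)
    (T : Finset (HeightOneSpectrum (𝓞 K))) (Q : MvPolynomial (Fin 3) K) (hQ : Q.IsHomogeneous 4)
    (hS : SF Q)
    (hT : ∀ v : HeightOneSpectrum (𝓞 K), v ∉ T → (2 : 𝓞 K) ∉ v.asIdeal → GoodQ Q v)
    (ξ : Fin 3 → F) (hξ : ξ ≠ 0) (h0 : MvPolynomial.eval₂ (algebraMap K F) ξ Q = 0)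
    (hgen : IntermediateField.adjoin K {z : F | ∃ i j, z = ξ i / ξ j} = ⊤)
    (a : FinitePlace K → AbsoluteValue C ℝ)
    (ha : ∀ v, IsNonarchimedean (a v) ∧ ∀ y : K, a v (algebraMap K C y) = v y)
    {Ψ : (K →+* ℂ) → Type*} [∀ σ, Field (Ψ σ)] [∀ σ, Algebra ℂ (Ψ σ)] (j : ∀ σ, F →+* Ψ σ)
    (hj : ∀ σ, CmpE σ (j σ)) (x₀ : F) (f₀ : Fin 3 → F)
    (hr : ∀ i, ∀ R : Place C Φ,
      0 ≤ R.ordDiff (algebraMap F Φ (f₀ i) • KaehlerDifferential.D C Φ (algebraMap F Φ x₀)))
    (hli : LinearIndependent C
      (fun i => algebraMap F Φ (f₀ i) • KaehlerDifferential.D C Φ (algebraMap F Φ x₀)))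
    (hsp : ∀ η : Ω[Φ⁄C], (∀ R : Place C Φ, 0 ≤ R.ordDiff η) → η ∈ Submodule.span C
      (Set.range (fun i => algebraMap F Φ (f₀ i) • KaehlerDifferential.D C Φ (algebraMap F Φ x₀)))) :
    hFal (C := C) (Φ := Φ) a j x₀ f₀ ≤ tw 151 (szK K T) :=
  Pool.Agent.PQ.fal hc T Q hQ hS hT ξ hξ h0 hgen a ha j hj x₀ f₀ hr hli hsp

end Pool.Agent.Results.MP_f89135_nt.PlaneQuartics
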